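import Pool.Agent.H14.AVR.Stmts

/-!
# AVR, module CNF: the number of irreducible separable cubics
-/

set_option autoImplicit false

namespace Pool.AVR

open Polynomial Matrix

/-- polynomials of degree at most `N` -/
def H95D (F : Type) [Field F] (N : ℕ) : Set F[X] := {p | p.natDegree ≤ N}

theorem h95D_eq (F : Type) [Field F] (N : ℕ) : H95D F N = (degreeLT F (N + 1) : Set F[X]) := by
  ext p
  simp only [H95D, Set.mem_ofPred_eq, SetLike.mem_coe, mem_degreeLT]
  rw [natDegree_le_iff_degree_le]
  constructor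
  · intro h
    exact lt_of_le_of_lt h (by exact_mod_cast Nat.lt_succ_self N)
  · intro h
    by_cases h0 : p = 0
    · rw [h0, degree_zero]; exact bot_le
    · rw [degree_eq_natDegree h0] at h ⊢
      have : p.natDegree < N + 1 := by exact_mod_cast h
      exact_mod_cast Nat.lt_succ_iff.mp this

theorem h95D_finite (F : Type) [Field F] [Finite F] (N : ℕ) : (H95D F N).Finite := by
  rw [h95D_eq]
  have : Finite (degreeLT F (N + 1)) :=
    Finite.of_equiv _ (degreeLTEquiv F (N + 1)).symm.toEquiv
  exact Set.toFinite _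

theorem h95D_ncard (F : Type) [Field F] [Finite F] (N : ℕ) :
    (H95D F N).ncard = Nat.card F ^ (N + 1) := by
  rw [h95D_eq, ← Nat.card_coe_set_eq]
  have h : Nat.card (degreeLT F (N + 1) : Set F[X]) = Nat.card (Fin (N + 1) → F) :=
    Nat.card_congr (degreeLTEquiv F (N + 1)).toEquiv
  rw [h, Nat.card_fun, Nat.card_fin]

theorem h95_fam (F : Type) [Field F] (n : ℕ) :
    Fam F n = H95D F (2 * n) ×ˢ (H95D F (4 * n) ×ˢ H95D F (6 * n)) := by
  ext f
  simp [Fam, H95D, Set.mem_prod]

theorem h95_cub_natDegree {R : Type} [CommRing R] [Nontrivial R] (a b c : R) :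
    (cub a b c).natDegree = 3 := by
  unfold cub
  compute_degree!

theorem h95_cub_monic {R : Type} [CommRing R] (a b c : R) : (cub a b c).Monic := by
  unfold cub
  monicity!

/-- A reducible cubic comes from a linear and a quadratic factor. -/
theorem h95_reducible {F : Type} [Field F] (n : ℕ) (f : F[X] × F[X] × F[X])
    (hf : f ∈ Fam F n) (hr : ¬ Irreducible (cubK f)) :
    ∃ r u v : F[X], r.natDegree ≤ 2 * n ∧ u.natDegree ≤ 2 * n ∧ v.natDegree ≤ 4 * n ∧
      f = (u - r, v - r * u, -(r * v)) := by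
  obtain ⟨a, b, c⟩ := f
  obtain ⟨ha, hb, hc⟩ := hf
  simp only at ha hb hc
  have hmon : (cubK (a, b, c)).Monic := h95_cub_monic _ _ _
  have hdeg : (cubK (a, b, c)).natDegree = 3 := h95_cub_natDegree _ _ _
  rw [hmon.irreducible_iff_roots_eq_zero_of_degree_le_three (by omega) (by omega)] at hr
  obtain ⟨x, hx⟩ := Multiset.exists_mem_of_ne_zero hr
  have hroot : x ^ 3 + algebraMap F[X] (RatFunc F) a * x ^ 2 +
      algebraMap F[X] (RatFunc F) b * x + algebraMap F[X] (RatFunc F) c = 0 := by
    have h := isRoot_of_mem_roots hx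
    unfold cubK cub at h
    simpa [IsRoot.def] using h
  have hint : IsIntegral F[X] x := by
    refine ⟨cub a b c, h95_cub_monic _ _ _, ?_⟩
    unfold cub
    simpa using hroot
  obtain ⟨r, rfl⟩ := IsIntegrallyClosed.algebraMap_eq_of_integral hint
  have hr0 : r ^ 3 + a * r ^ 2 + b * r + c = 0 := by
    have : algebraMap F[X] (RatFunc F) (r ^ 3 + a * r ^ 2 + b * r + c) = 0 := by
      simpa using hroot
    exact (IsFractionRing.injective F[X] (RatFunc F)) (by rw [this, map_zero])
  have hrd : r.natDegree ≤ 2 * n := by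
    by_contra hcon
    push Not at hcon
    have h1 : (r ^ 3).natDegree = 3 * r.natDegree := natDegree_pow r 3
    have h2 : (a * r ^ 2).natDegree ≤ 2 * n + 2 * r.natDegree :=
      (natDegree_mul_le).trans (by rw [natDegree_pow]; omega)
    have h3 : (b * r).natDegree ≤ 4 * n + r.natDegree := (natDegree_mul_le).trans (by omega)
    have h4 : (a * r ^ 2 + b * r + c).natDegree < 3 * r.natDegree := by
      have h5 := natDegree_add_le (a * r ^ 2 + b * r) c
      have h6 := natDegree_add_le (a * r ^ 2) (b * r)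
      have h7 : max (a * r ^ 2).natDegree (b * r).natDegree < 3 * r.natDegree :=
        max_lt (by omega) (by omega)
      have h8 : max (a * r ^ 2 + b * r).natDegree c.natDegree < 3 * r.natDegree :=
        max_lt (by omega) (by omega)
      omega
    have h5 : r ^ 3 = -(a * r ^ 2 + b * r + c) := by linear_combination hr0
    rw [h5, natDegree_neg] at h1
    omega
  refine ⟨r, a + r, b + r * (a + r), hrd, ?_, ?_, ?_⟩
  · exact (natDegree_add_le a r).trans (max_le ha hrd)
  · have h1 := natDegree_add_le a r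
    have h2 : (a + r).natDegree ≤ 2 * n := h1.trans (max_le ha hrd)
    have h3 : (r * (a + r)).natDegree ≤ 4 * n := natDegree_mul_le.trans (by omega)
    exact (natDegree_add_le b _).trans (max_le hb h3)
  · have e1 : a + r - r = a := by ring
    have e2 : b + r * (a + r) - r * (a + r) = b := by ring
    have e3 : -(r * (b + r * (a + r))) = c := by linear_combination -hr0
    rw [e1, e2, e3]

theorem h95_insep {F : Type} [Field F] (h2 : (2 : F) ≠ 0) (f : F[X] × F[X] × F[X])
    (hi : Irreducible (cubK f)) (hs : ¬ (cubK f).Separable) : f.1 = 0 ∧ f.2.1 = 0 := by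
  rw [separable_iff_derivative_ne_zero hi, not_not] at hs
  obtain ⟨a, b, c⟩ := f
  have k2 : (cubK (a, b, c)).coeff 2 = algebraMap F[X] (RatFunc F) a := by
    simp [cubK, cub, coeff_X, coeff_C, coeff_X_pow]
  have k1 : (cubK (a, b, c)).coeff 1 = algebraMap F[X] (RatFunc F) b := by
    simp [cubK, cub, coeff_X, coeff_C, coeff_X_pow]
  have c1 : (derivative (cubK (a, b, c))).coeff 1 = 0 := by rw [hs, coeff_zero]
  have c0 : (derivative (cubK (a, b, c))).coeff 0 = 0 := by rw [hs, coeff_zero]
  rw [coeff_derivative] at c1 c0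
  norm_num [k2, k1] at c1 c0
  have h2' : (2 : RatFunc F) ≠ 0 := by
    intro h
    have h3 : algebraMap F (RatFunc F) 2 = 0 := by
      rw [map_ofNat]
      exact h
    exact h2 ((map_eq_zero _).mp h3)
  refine ⟨?_, ?_⟩
  · rcases c1 with h | h
    · exact h
    · exact absurd h h2'
  · exact c0

theorem cnf_thm : CNFStmt := by
  intro F _ _ h2 n hn
  have hfin : (Fam F n).Finite := by
    rw [h95_fam]
    exact (h95D_finite F _).prod ((h95D_finite F _).prod (h95D_finite F _))
  refine ⟨hfin, ?_, ?_⟩
  · rw [h95_fam, Set.ncard_prod, Set.ncard_prod, h95D_ncard, h95D_ncard, h95D_ncard, ← pow_add,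
      ← pow_add]
    congr 1
    omega
  · set T : Set (F[X] × F[X] × F[X]) := H95D F (2 * n) ×ˢ (H95D F (2 * n) ×ˢ H95D F (4 * n))
      with hT
    set U : Set (F[X] × F[X] × F[X]) := H95D F 0 ×ˢ (H95D F 0 ×ˢ H95D F (6 * n)) with hU
    set φ : F[X] × F[X] × F[X] → F[X] × F[X] × F[X] :=
      fun p => (p.2.1 - p.1, p.2.2 - p.1 * p.2.1, -(p.1 * p.2.2)) with hφ
    set V : Set (F[X] × F[X] × F[X]) := (fun c : F[X] => ((0 : F[X]), (0 : F[X]), c)) ''
      H95D F (6 * n) with hV
    have hTf : T.Finite := (h95D_finite F _).prod ((h95D_finite F _).prod (h95D_finite F _))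
    have hsub : {f ∈ Fam F n | ¬ (Irreducible (cubK f) ∧ (cubK f).Separable)} ⊆ φ '' T ∪ V := by
      rintro f ⟨hf, hns⟩
      by_cases hi : Irreducible (cubK f)
      · right
        have hs : ¬ (cubK f).Separable := fun h => hns ⟨hi, h⟩
        obtain ⟨h1, h3⟩ := h95_insep h2 f hi hs
        refine ⟨f.2.2, hf.2.2, ?_⟩
        obtain ⟨a, b, c⟩ := f
        simp only at h1 h3
        rw [h1, h3]
      · left
        obtain ⟨r, u, v, hr, hu, hv, he⟩ := h95_reducible n f hf hi
        exact ⟨(r, u, v), ⟨hr, hu, hv⟩, he.symm⟩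
    have hVf : V.Finite := (h95D_finite F _).image _
    have hle := Set.ncard_le_ncard hsub ((hTf.image φ).union hVf)
    have hun := Set.ncard_union_le (φ '' T) V
    have hi1 := Set.ncard_image_le (f := φ) hTf
    have hi2 := Set.ncard_image_le (f := fun c : F[X] => ((0 : F[X]), (0 : F[X]), c))
      (h95D_finite F (6 * n))
    have hTc : T.ncard = Nat.card F ^ (8 * n + 3) := by
      rw [hT, Set.ncard_prod, Set.ncard_prod, h95D_ncard, h95D_ncard, ← pow_add, ← pow_add]
      congr 1
      omega
    have hVc : (H95D F (6 * n)).ncard ≤ Nat.card F ^ (8 * n + 3) := by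
      rw [h95D_ncard]
      exact Nat.pow_le_pow_right Nat.card_pos (by omega)
    have : V.ncard ≤ Nat.card F ^ (8 * n + 3) := hi2.trans hVc
    omega

end Pool.AVR
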