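import Pool.Agent.H14.AVR.Stmts

/-!
# AVR, module ACT: the groups act
-/

set_option autoImplicit false

namespace Pool.AVR

open Polynomial Matrix

/-- degree bound in `ℤ` -/
def H95DB {F : Type} [Field F] (p : F[X]) (z : ℤ) : Prop := p ≠ 0 → (p.natDegree : ℤ) ≤ z

theorem h95db_zero {F : Type} [Field F] (z : ℤ) : H95DB (0 : F[X]) z := fun h => absurd rfl h

theorem h95db_add {F : Type} [Field F] {p q : F[X]} {z : ℤ} (hp : H95DB p z) (hq : H95DB q z) :
    H95DB (p + q) z := by
  intro h
  by_cases h1 : p = 0
  · subst h1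
    rw [zero_add] at h ⊢
    exact hq h
  by_cases h2 : q = 0
  · subst h2
    rw [add_zero] at h ⊢
    exact hp h
  have h3 := natDegree_add_le p q
  have h4 := hp h1
  have h5 := hq h2
  have h6 : ((p + q).natDegree : ℤ) ≤ max (p.natDegree : ℤ) (q.natDegree : ℤ) := by
    exact_mod_cast h3
  exact h6.trans (max_le h4 h5)

theorem h95db_mul {F : Type} [Field F] {p q : F[X]} {z w : ℤ} (hp : H95DB p z) (hq : H95DB q w) :
    H95DB (p * q) (z + w) := by
  intro h
  have h1 : p ≠ 0 := fun h0 => h (by rw [h0, zero_mul])
  have h2 : q ≠ 0 := fun h0 => h (by rw [h0, mul_zero])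
  have h3 := natDegree_mul h1 h2
  have h4 := hp h1
  have h5 := hq h2
  rw [h3]
  push_cast
  linarith

theorem h95db_sum {F : Type} [Field F] {ι : Type} (s : Finset ι) (f : ι → F[X]) {z : ℤ}
    (h : ∀ i ∈ s, H95DB (f i) z) : H95DB (∑ i ∈ s, f i) z := by
  classical
  induction s using Finset.induction_on with
  | empty => rw [Finset.sum_empty]; exact h95db_zero z
  | insert a s ha ih =>
      rw [Finset.sum_insert ha]
      exact h95db_add (h a (Finset.mem_insert_self a s))
        (ih fun i hi => h i (Finset.mem_insert_of_mem hi))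

theorem act_thm : ACTStmt := by
  intro F _ n m B g hB hg
  obtain ⟨hs, hd⟩ := hB
  obtain ⟨_, _, hg⟩ := hg
  refine ⟨?_, ?_⟩
  · rw [transpose_mul, transpose_mul, transpose_transpose, hs, Matrix.mul_assoc]
  · intro i j
    have key : H95DB ((gᵀ * B * g) i j) (2 * n + dd m i + dd m j) := by
      rw [Matrix.mul_apply]
      apply h95db_sum
      intro l _
      rw [Matrix.mul_apply]
      have h1 : H95DB (∑ k, gᵀ i k * B k l) (2 * n + dd m i + dd m l) := by
        apply h95db_sum
        intro k _
        have h2 : H95DB (gᵀ i k) (dd m i - dd m k) := hg k i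
        have h3 : H95DB (B k l) (2 * n + dd m k + dd m l) := hd k l
        have h4 := h95db_mul h2 h3
        intro h5
        have h6 := h4 h5
        linarith
      have h2 : H95DB (g l j) (dd m j - dd m l) := hg l j
      have h4 := h95db_mul h1 h2
      intro h5
      have h6 := h4 h5
      linarith
    exact key

end Pool.AVR
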